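import Pool.Agent.Helper10.SP.GoalsA
import Pool.Agent.Helper95.Lin.Basics
import Pool.Agent.Helper9.Lin.Lev

/-! # Packet SP-AFFT: transition maps between special charts are affine in the fibre coordinate -/

open Complex Metric Set Filter Topology MeasureTheory
open scoped ContDiff ComplexConjugate ComplexOrder Manifold Matrix

namespace Pool.Agent.Helper55.SP

open Pool.Agent.Helper95.Lin Pool.Agent.Helper16.Abund Pool.Agent.Helper92.Orb
open Pool.Agent.Helper10.SP

/-! ## Coordinates -/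

section coords

variable {b : ℕ}

theorem base_pt (z : Cn b) (w : ℂ) : base (pt z w) = z := by
  funext i
  simp [base, pt]

theorem lc_pt (z : Cn b) (w : ℂ) : lc (pt z w) = w := by
  simp [lc, pt]

theorem pt_base_lc (x : Cn (b + 1)) : pt (base x) (lc x) = x := by
  funext i
  refine Fin.addCases (fun j => ?_) (fun j => ?_) i
  · simp [base, pt]
  · have hj : j = 0 := Subsingleton.elim _ _
    subst hj
    simp [lc, pt]

theorem base_ew : base (ew b) = 0 := by
  funext i
  simp only [base, ew, Pi.zero_apply]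
  rw [Pi.single_eq_of_ne]
  intro h
  have := congrArg Fin.val h
  simp at this
  omega

theorem lc_ew : lc (ew b) = 1 := by
  simp [lc, ew]

theorem ext_bl {x y : Cn (b + 1)} (h1 : base x = base y) (h2 : lc x = lc y) : x = y := by
  rw [← pt_base_lc x, ← pt_base_lc y, h1, h2]

theorem base_add (x y : Cn (b + 1)) : base (x + y) = base x + base y := rfl
theorem base_smul (c : ℂ) (x : Cn (b + 1)) : base (c • x) = c • base x := rfl
theorem lc_add (x y : Cn (b + 1)) : lc (x + y) = lc x + lc y := rfl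
theorem lc_smul (c : ℂ) (x : Cn (b + 1)) : lc (c • x) = c * lc x := rfl

theorem pt_eq_add (z : Cn b) (w : ℂ) : pt z w = pt z 0 + w • ew b := by
  apply ext_bl
  · rw [base_add, base_smul, base_ew, base_pt, base_pt]; simp
  · rw [lc_add, lc_smul, lc_ew, lc_pt, lc_pt]; simp

/-- `base` as a continuous linear map. -/
noncomputable def baseL (b : ℕ) : Cn (b + 1) →L[ℂ] Cn b :=
  ContinuousLinearMap.pi fun i => ContinuousLinearMap.proj (Fin.castAdd 1 i)

theorem baseL_apply (x : Cn (b + 1)) : baseL b x = base x := rfl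

/-- `lc` as a continuous linear map. -/
noncomputable def lcL (b : ℕ) : Cn (b + 1) →L[ℂ] ℂ :=
  ContinuousLinearMap.proj (Fin.natAdd b 0)

theorem lcL_apply (x : Cn (b + 1)) : lcL b x = lc x := rfl

/-- `u ↦ (u, 0)` as a continuous linear map. -/
noncomputable def embL (b : ℕ) : Cn b →L[ℂ] Cn (b + 1) :=
  LinearMap.toContinuousLinearMap
    { toFun := fun u => pt u 0
      map_add' := fun u v => by
        apply ext_bl
        · rw [base_add, base_pt, base_pt, base_pt]
        · rw [lc_add, lc_pt, lc_pt, lc_pt]; simp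
      map_smul' := fun c u => by
        apply ext_bl
        · rw [RingHom.id_apply, base_smul, base_pt, base_pt]
        · rw [RingHom.id_apply, lc_smul, lc_pt, lc_pt]; simp }

theorem embL_apply (u : Cn b) : embL b u = pt u 0 := rfl

theorem hasDerivAt_pt (z : Cn b) (w : ℂ) : HasDerivAt (fun s : ℂ => pt z s) (ew b) w := by
  have h1 : (fun s : ℂ => pt z s) = fun s : ℂ => pt z 0 + s • ew b := by
    funext s
    exact pt_eq_add z s
  rw [h1]
  simpa using ((hasDerivAt_id w).smul_const (ew b)).const_add (pt z 0)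

theorem hasFDerivAt_pt (w : ℂ) (z : Cn b) : HasFDerivAt (fun u : Cn b => pt u w) (embL b) z := by
  have h1 : (fun u : Cn b => pt u w) = fun u : Cn b => embL b u + w • ew b := by
    funext u
    rw [embL_apply]
    exact pt_eq_add u w
  rw [h1]
  exact (embL b).hasFDerivAt.add_const _

theorem isOpen_prodS {U : Set (Cn b)} {Δ : Set ℂ} (hU : IsOpen U) (hΔ : IsOpen Δ) :
    IsOpen (prodS U Δ) :=
  (hU.preimage continuous_base).inter (hΔ.preimage (lcL b).continuous)

theorem pt_mem {U : Set (Cn b)} {Δ : Set ℂ} {z : Cn b} {w : ℂ} (hz : z ∈ U) (hw : w ∈ Δ) :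
    pt z w ∈ prodS U Δ := by
  refine ⟨?_, ?_⟩
  · rw [base_pt]; exact hz
  · rw [lc_pt]; exact hw

end coords

/-! ## A block triangular determinant -/

theorem pt_single {b : ℕ} (j : Fin b) :
    pt (Pi.single j 1 : Cn b) 0 = (Pi.single (Fin.castAdd 1 j) 1 : Cn (b + 1)) := by
  funext i
  refine Fin.addCases (fun l => ?_) (fun l => ?_) i
  · simp only [pt, Fin.append_left, Pi.single_apply, Fin.castAdd_inj]
  · simp only [pt, Fin.append_right]
    rw [Pi.single_eq_of_ne]
    intro h
    have := congrArg Fin.val h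
    simp at this
    omega

theorem det_block {b : ℕ} (L : Cn (b + 1) →L[ℂ] Cn (b + 1)) (h : base (L (ew b)) = 0)
    (A : Cn b →L[ℂ] Cn b) (hA : ∀ u, A u = base (L (pt u 0))) :
    L.det = A.det * lc (L (ew b)) := by
  have h1 : L.det = (LinearMap.toMatrix' (L : Cn (b + 1) →ₗ[ℂ] Cn (b + 1))).det :=
    (LinearMap.det_toMatrix' _).symm
  have h2 : A.det = (LinearMap.toMatrix' (A : Cn b →ₗ[ℂ] Cn b)).det :=
    (LinearMap.det_toMatrix' _).symm
  rw [h1, h2, ← Matrix.det_submatrix_equiv_self (finSumFinEquiv (m := b) (n := 1))]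
  have h3 : (LinearMap.toMatrix' (L : Cn (b + 1) →ₗ[ℂ] Cn (b + 1))).submatrix
      (finSumFinEquiv (m := b) (n := 1)) (finSumFinEquiv (m := b) (n := 1)) =
      Matrix.fromBlocks (LinearMap.toMatrix' (A : Cn b →ₗ[ℂ] Cn b)) 0
        (Matrix.of fun (_ : Fin 1) (j : Fin b) => lc (L (pt (Pi.single j 1) 0)))
        (Matrix.of fun (_ : Fin 1) (_ : Fin 1) => lc (L (ew b))) := by
    ext i j
    rcases i with i | i <;> rcases j with j | j
    · simp only [Matrix.submatrix_apply, finSumFinEquiv_apply_left, Matrix.fromBlocks_apply₁₁,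
        LinearMap.toMatrix'_apply]
      have := congrFun (hA (Pi.single j 1)) i
      rw [pt_single] at this
      simpa [base] using this.symm
    · simp only [Matrix.submatrix_apply, finSumFinEquiv_apply_left, finSumFinEquiv_apply_right,
        Matrix.fromBlocks_apply₁₂, LinearMap.toMatrix'_apply, Matrix.zero_apply]
      have hj : j = 0 := Subsingleton.elim _ _
      subst hj
      exact congrFun h i
    · simp only [Matrix.submatrix_apply, finSumFinEquiv_apply_left, finSumFinEquiv_apply_right,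
        Matrix.fromBlocks_apply₂₁, LinearMap.toMatrix'_apply, Matrix.of_apply]
      have hi : i = 0 := Subsingleton.elim _ _
      subst hi
      rw [pt_single]
      rfl
    · simp only [Matrix.submatrix_apply, finSumFinEquiv_apply_right,
        Matrix.fromBlocks_apply₂₂, LinearMap.toMatrix'_apply, Matrix.of_apply]
      have hi : i = 0 := Subsingleton.elim _ _
      have hj : j = 0 := Subsingleton.elim _ _
      subst hi hj
      rfl
  rw [h3, Matrix.det_fromBlocks_zero₁₂]
  congr 1
  rw [Matrix.det_unique]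
  rfl


/-! ## The Levi form of a sum -/

theorem hess_add {n : ℕ} {W : Set (Cn n)} (hW : IsOpen W) {f g : Cn n → ℝ}
    (hf : ContDiffOn ℝ ∞ f W) (hg : ContDiffOn ℝ ∞ g W) {x : Cn n} (hx : x ∈ W) (u v : Cn n) :
    hess (fun y => f y + g y) x u v = hess f x u v + hess g x u v := by
  unfold hess
  have hd : ∀ {q : Cn n → ℝ}, ContDiffOn ℝ ∞ q W → ∀ y ∈ W, DifferentiableAt ℝ q y :=
    fun hq y hy => (hq.differentiableOn (by simp)).differentiableAt (hW.mem_nhds hy)
  have hd2 : ∀ {q : Cn n → ℝ}, ContDiffOn ℝ ∞ q W →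
      DifferentiableAt ℝ (fun y => fderiv ℝ q y v) x := by
    intro q hq
    have h1 : ContDiffOn ℝ ∞ (fun y => fderiv ℝ q y) W :=
      hq.fderiv_of_isOpen hW (by simp)
    have h2 : DifferentiableAt ℝ (fun y => fderiv ℝ q y) x :=
      (h1.differentiableOn (by simp)).differentiableAt (hW.mem_nhds hx)
    exact h2.clm_apply (differentiableAt_const v)
  have h1 : (fun y => fderiv ℝ (fun y => f y + g y) y v) =ᶠ[𝓝 x]
      fun y => fderiv ℝ f y v + fderiv ℝ g y v := by
    filter_upwards [hW.mem_nhds hx] with y hy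
    rw [fderiv_fun_add (hd hf y hy) (hd hg y hy)]
    rfl
  rw [h1.fderiv_eq, fderiv_fun_add (hd2 hf) (hd2 hg)]
  rfl

theorem lev_add {n : ℕ} {W : Set (Cn n)} (hW : IsOpen W) {f g : Cn n → ℝ}
    (hf : ContDiffOn ℝ ∞ f W) (hg : ContDiffOn ℝ ∞ g W) {x : Cn n} (hx : x ∈ W) (e : Cn n) :
    lev (fun y => f y + g y) x e = lev f x e + lev g x e := by
  unfold lev
  rw [hess_add hW hf hg hx, hess_add hW hf hg hx]
  ring

theorem lev_dir_zero {n : ℕ} (φ : Cn n → ℝ) (x : Cn n) : lev φ x 0 = 0 := by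
  simp [lev, hess]

theorem diffOn_prod {n : ℕ} {ι : Type} (s : Finset ι) {W : Set (Cn n)} (f : ι → Cn n → ℂ)
    (h : ∀ i ∈ s, DifferentiableOn ℂ (f i) W) : DifferentiableOn ℂ (fun y => ∏ i ∈ s, f i y) W := by
  classical
  induction s using Finset.induction_on with
  | empty => simp only [Finset.prod_empty]; exact differentiableOn_const _
  | insert i s hi ih =>
    simp only [Finset.prod_insert hi]
    exact (h i (Finset.mem_insert_self i s)).mul
      (ih fun j hj => h j (Finset.mem_insert_of_mem hj))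

/-! ## The main statement -/

theorem afft (hWCH : S_WCH) : S_AFFT := by
  intro b U U' w₀ r hU hU' hr Ψ₁ Ψ₂ hΨ₁ hΨ₂ hpos τ hτ hτ2
  obtain ⟨hC, hL⟩ := hWCH
  set Δ : Set ℂ := ball w₀ r with hΔ
  have hΔo : IsOpen Δ := isOpen_ball
  have hw₀ : w₀ ∈ Δ := mem_ball_self hr
  set W : Set (Cn (b + 1)) := prodS U Δ with hWdef
  have hW : IsOpen W := isOpen_prodS hU hΔo
  have hτa : ∀ x ∈ W, DifferentiableAt ℂ τ x := fun x hx => hτ.differentiableAt (hW.mem_nhds hx)
  have hD : DifferentiableOn ℂ (fderiv ℂ τ) W := holo_fderiv hW hτ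
  -- the base component of the derivative in the fibre direction vanishes
  have hbase : ∀ x ∈ W, base (fderiv ℂ τ x (ew b)) = 0 := by
    intro x hx
    have h1 : lev (Ψ₁ ∘ (base : Cn (b + 1) → Cn b)) x (ew b) = 0 := by
      have hb : DifferentiableOn ℂ (base : Cn (b + 1) → Cn b) W := (baseL b).differentiable.differentiableOn
      have := ((hC U W hU hW base hb (fun y hy => hy.1)).2 Ψ₁ hΨ₁ x hx).1 (ew b)
      rw [this]
      have h2 : fderiv ℂ (base : Cn (b + 1) → Cn b) x (ew b) = 0 := by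
        have h3 : HasFDerivAt (base : Cn (b + 1) → Cn b) (baseL b) x := (baseL b).hasFDerivAt
        rw [h3.fderiv, baseL_apply, base_ew]
      rw [h2, lev_dir_zero]
    have hbτ : DifferentiableOn ℂ (fun y => base (τ y)) W :=
      (baseL b).differentiable.comp_differentiableOn hτ
    have hmaps : MapsTo (fun y => base (τ y)) W U' := fun y hy => (hτ2 y hy).1
    have h4 := ((hC U' W hU' hW (fun y => base (τ y)) hbτ hmaps).2 Ψ₂ hΨ₂ x hx).1 (ew b)
    have h5 : fderiv ℂ (fun y => base (τ y)) x (ew b) = base (fderiv ℂ τ x (ew b)) := by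
      have h6 : HasFDerivAt (fun y => base (τ y)) ((baseL b).comp (fderiv ℂ τ x)) x :=
        (baseL b).hasFDerivAt.comp x (hτa x hx).hasFDerivAt
      rw [h6.fderiv]
      rfl
    rw [h5] at h4
    have hdet : DifferentiableOn ℂ (fun y => (fderiv ℂ τ y).det) W := by
      have h7 : ∀ y, (fderiv ℂ τ y).det =
          (Matrix.of fun i j => fderiv ℂ τ y (Pi.single j 1) i).det := by
        intro y
        have h8 : (fderiv ℂ τ y).det = (LinearMap.toMatrix'
          ((fderiv ℂ τ y) : Cn (b + 1) →ₗ[ℂ] Cn (b + 1))).det := (LinearMap.det_toMatrix' _).symm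
        rw [h8]
        congr 1
      have h9 : (fun y => (fderiv ℂ τ y).det) = fun y =>
          (Matrix.of fun i j => fderiv ℂ τ y (Pi.single j 1) i).det := funext h7
      rw [h9]
      simp only [Matrix.det_apply']
      refine DifferentiableOn.fun_sum fun σ _ => ?_
      refine DifferentiableOn.const_mul ?_ _
      simp only [Matrix.of_apply]
      have h11 : ∀ i ∈ (Finset.univ : Finset (Fin (b + 1))),
          DifferentiableOn ℂ (fun y => fderiv ℂ τ y (Pi.single i 1) (σ i)) W := by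
        intro i _
        have h10 : DifferentiableOn ℂ (fun y => fderiv ℂ τ y (Pi.single i 1)) W :=
          hD.clm_apply (differentiableOn_const _)
        exact differentiableOn_pi.1 h10 (σ i)
      exact diffOn_prod Finset.univ _ h11
    obtain ⟨hLs, hLz⟩ := hL W hW (fun y => (fderiv ℂ τ y).det) hdet (fun y hy => (hτ2 y hy).2.1)
    have h11 : (Ψ₁ ∘ (base : Cn (b + 1) → Cn b)) =ᶠ[𝓝 x] fun y =>
        (Ψ₂ ∘ fun y => base (τ y)) y + Real.log (‖(fderiv ℂ τ y).det‖ ^ 2) := by
      filter_upwards [hW.mem_nhds hx] with y hy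
      exact (hτ2 y hy).2.2
    rw [Pool.Agent.Helper9.Lin.lev_congr h11] at h1
    have h12 : ContDiffOn ℝ ∞ (Ψ₂ ∘ fun y => base (τ y)) W :=
      hΨ₂.comp (holo_contDiffOn_real hW hbτ) hmaps
    rw [lev_add hW h12 hLs hx, (hLz x hx).1 (ew b), h4, add_zero] at h1
    by_contra hne
    exact absurd h1 (hpos _ (hτ2 x hx).1 _ hne).ne'
  -- derivative along the fibre
  have hfib : ∀ z ∈ U, ∀ w ∈ Δ, HasDerivAt (fun s => τ (pt z s)) (fderiv ℂ τ (pt z w) (ew b)) w :=
    fun z hz w hw => (hτa _ (pt_mem hz hw)).hasFDerivAt.comp_hasDerivAt w (hasDerivAt_pt z w)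
  have hfibb : ∀ z ∈ U, ∀ w ∈ Δ, base (τ (pt z w)) = base (τ (pt z w₀)) := by
    intro z hz w hw
    have hd : ∀ s ∈ Δ, HasDerivAt (fun s => base (τ (pt z s))) 0 s := by
      intro s hs
      have h1 := (baseL b).hasFDerivAt.comp_hasDerivAt s (hfib z hz s hs)
      have h2 : (baseL b) (fderiv ℂ τ (pt z s) (ew b)) = 0 := hbase _ (pt_mem hz hs)
      rw [h2] at h1
      exact h1
    exact hΔo.is_const_of_deriv_eq_zero (convex_ball w₀ r).isPreconnected
      (fun s hs => (hd s hs).differentiableAt.differentiableWithinAt)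
      (fun s hs => (hd s hs).deriv) hw hw₀
  set g : Cn b → Cn b := fun z => base (τ (pt z w₀)) with hg
  have hgd : DifferentiableOn ℂ g U := by
    intro z hz
    have h1 : DifferentiableAt ℂ (fun u => τ (pt u w₀)) z :=
      (hτa _ (pt_mem hz hw₀)).comp z (hasFDerivAt_pt w₀ z).differentiableAt
    exact ((baseL b).differentiable.differentiableAt.comp z h1).differentiableWithinAt
  -- determinant formula
  have hdetf : ∀ z ∈ U, ∀ w ∈ Δ, (fderiv ℂ τ (pt z w)).det =
      (fderiv ℂ g z).det * lc (fderiv ℂ τ (pt z w) (ew b)) := by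
    intro z hz w hw
    refine det_block _ (hbase _ (pt_mem hz hw)) _ fun u => ?_
    have h1 : g =ᶠ[𝓝 z] fun u => base (τ (pt u w)) := by
      filter_upwards [hU.mem_nhds hz] with u hu
      exact (hfibb u hu w hw).symm
    have h2 : HasFDerivAt (fun u => base (τ (pt u w)))
        ((baseL b).comp ((fderiv ℂ τ (pt z w)).comp (embL b))) z :=
      (baseL b).hasFDerivAt.comp z
        ((hτa _ (pt_mem hz hw)).hasFDerivAt.comp z (hasFDerivAt_pt w z))
    rw [h1.fderiv_eq, h2.fderiv]
    rfl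
  have hne : ∀ z ∈ U, ∀ w ∈ Δ, (fderiv ℂ g z).det ≠ 0 ∧ lc (fderiv ℂ τ (pt z w) (ew b)) ≠ 0 := by
    intro z hz w hw
    have h1 := (hτ2 _ (pt_mem hz hw)).2.1
    rw [hdetf z hz w hw] at h1
    exact ⟨left_ne_zero_of_mul h1, right_ne_zero_of_mul h1⟩
  have hΨ : ∀ z ∈ U, ∀ w ∈ Δ, Ψ₁ z = Ψ₂ (g z) + Real.log (‖(fderiv ℂ g z).det‖ ^ 2) +
      Real.log (‖lc (fderiv ℂ τ (pt z w) (ew b))‖ ^ 2) := by
    intro z hz w hw
    have h1 := (hτ2 _ (pt_mem hz hw)).2.2
    obtain ⟨h2, h3⟩ := hne z hz w hw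
    rw [base_pt, hfibb z hz w hw, hdetf z hz w hw, norm_mul, mul_pow, Real.log_mul
      (by positivity) (by positivity)] at h1
    rw [h1]
    ring
  have hnorm : ∀ z ∈ U, ∀ w ∈ Δ, ‖lc (fderiv ℂ τ (pt z w) (ew b))‖ =
      ‖lc (fderiv ℂ τ (pt z w₀) (ew b))‖ := by
    intro z hz w hw
    have h1 := hΨ z hz w hw
    have h2 := hΨ z hz w₀ hw₀
    have h3 : Real.log (‖lc (fderiv ℂ τ (pt z w) (ew b))‖ ^ 2) =
        Real.log (‖lc (fderiv ℂ τ (pt z w₀) (ew b))‖ ^ 2) := by linarith
    have h4 := (hne z hz w hw).2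
    have h5 := (hne z hz w₀ hw₀).2
    have h6 := Real.log_injOn_pos (show ‖lc (fderiv ℂ τ (pt z w) (ew b))‖ ^ 2 ∈ Ioi (0 : ℝ) by
      simp only [mem_Ioi]; positivity) (show ‖lc (fderiv ℂ τ (pt z w₀) (ew b))‖ ^ 2 ∈ Ioi (0 : ℝ) by
      simp only [mem_Ioi]; positivity) h3
    exact (pow_left_inj₀ (norm_nonneg _) (norm_nonneg _) two_ne_zero).1 h6
  set a : Cn b → ℂ := fun z => lc (fderiv ℂ τ (pt z w₀) (ew b)) with ha
  have hconst : ∀ z ∈ U, ∀ w ∈ Δ, lc (fderiv ℂ τ (pt z w) (ew b)) = a z := by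
    intro z hz w hw
    have h1 : DifferentiableOn ℂ (fun s => lc (fderiv ℂ τ (pt z s) (ew b))) Δ := by
      intro s hs
      have h2 : DifferentiableAt ℂ (fderiv ℂ τ) (pt z s) :=
        hD.differentiableAt (hW.mem_nhds (pt_mem hz hs))
      have h3 : DifferentiableAt ℂ (fun s => fderiv ℂ τ (pt z s)) s :=
        h2.comp s (hasDerivAt_pt z s).differentiableAt
      have h4 : DifferentiableAt ℂ (fun s => fderiv ℂ τ (pt z s) (ew b)) s :=
        h3.clm_apply (differentiableAt_const _)
      exact ((lcL b).differentiable.differentiableAt.comp s h4).differentiableWithinAt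
    have h5 := Complex.eqOn_of_isPreconnected_of_isMaxOn_norm (convex_ball w₀ r).isPreconnected
      hΔo h1 hw₀ (fun s hs => by
        simp only [Function.comp_apply, Set.mem_ofPred_eq]
        exact (hnorm z hz s hs).le)
    exact h5 hw
  have hlin : ∀ z ∈ U, ∀ w ∈ Δ, lc (τ (pt z w)) - a z * w = lc (τ (pt z w₀)) - a z * w₀ := by
    intro z hz w hw
    have hd : ∀ s ∈ Δ, HasDerivAt (fun s => lc (τ (pt z s)) - a z * s) 0 s := by
      intro s hs
      have h1 := (lcL b).hasFDerivAt.comp_hasDerivAt s (hfib z hz s hs)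
      have h2 : (lcL b) (fderiv ℂ τ (pt z s) (ew b)) = a z := hconst z hz s hs
      rw [h2] at h1
      have h3 := h1.sub ((hasDerivAt_id s).const_mul (a z))
      have h4 : a z - a z * 1 = 0 := by ring
      rw [h4] at h3
      exact h3
    exact hΔo.is_const_of_deriv_eq_zero (convex_ball w₀ r).isPreconnected
      (fun s hs => (hd s hs).differentiableAt.differentiableWithinAt)
      (fun s hs => (hd s hs).deriv) hw hw₀
  have had : DifferentiableOn ℂ a U := by
    intro z hz
    have h2 : DifferentiableAt ℂ (fderiv ℂ τ) (pt z w₀) :=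
      hD.differentiableAt (hW.mem_nhds (pt_mem hz hw₀))
    have h3 : DifferentiableAt ℂ (fun u => fderiv ℂ τ (pt u w₀)) z :=
      h2.comp z (hasFDerivAt_pt w₀ z).differentiableAt
    have h4 : DifferentiableAt ℂ (fun u => fderiv ℂ τ (pt u w₀) (ew b)) z :=
      h3.clm_apply (differentiableAt_const _)
    exact ((lcL b).differentiable.differentiableAt.comp z h4).differentiableWithinAt
  refine ⟨⟨g, a, fun z => lc (τ (pt z w₀)) - a z * w₀⟩, hgd, had, ?_, ?_, ?_⟩
  · intro z hz
    have h1 : DifferentiableAt ℂ (fun u => τ (pt u w₀)) z :=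
      (hτa _ (pt_mem hz hw₀)).comp z (hasFDerivAt_pt w₀ z).differentiableAt
    have h2 : DifferentiableAt ℂ (fun u => lc (τ (pt u w₀))) z :=
      (lcL b).differentiable.differentiableAt.comp z h1
    exact h2.differentiableWithinAt.sub ((had z hz).mul_const w₀)
  · intro z hz
    refine ⟨(hτ2 _ (pt_mem hz hw₀)).1, (hne z hz w₀ hw₀).2, (hne z hz w₀ hw₀).1, ?_⟩
    exact hΨ z hz w₀ hw₀
  · intro z hz w hw
    apply ext_bl
    · rw [base_pt]
      exact hfibb z hz w hw
    · rw [lc_pt]
      have := hlin z hz w hw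
      simp only
      linear_combination this

end Pool.Agent.Helper55.SP
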