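import Pool.Agent.Helper45.SP.GoalsG

/-!
# SP-NILT: `Ad t - 1` is nilpotent for `t` near the identity (packet 3813)
-/

open Complex Metric Set Filter Topology
open scoped ContDiff ComplexConjugate

namespace Pool.Agent.Helper55.SP

open Pool.Agent.Helper95.Lin Pool.Agent.Helper10.SP Pool.Agent.Helper45.SP

/-- Recursive choice of a sequence with an invariant and a relation between consecutive terms. -/
theorem exists_seq_rel {α : Type*} (P : ℕ → α → Prop) (R : ℕ → α → α → Prop) (a₀ : α)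
    (h0 : P 0 a₀) (hs : ∀ k a, P k a → ∃ b, P (k + 1) b ∧ R k a b) :
    ∃ s : ℕ → α, s 0 = a₀ ∧ (∀ k, P k (s k)) ∧ ∀ k, R k (s k) (s (k + 1)) := by
  classical
  choose! f hf using hs
  let s : ℕ → α := fun k => Nat.rec a₀ (fun k a => f k a) k
  have hP : ∀ k, P k (s k) := by
    intro k
    induction k with
    | zero => exact h0
    | succ k ih => exact (hf k (s k) ih).1
  exact ⟨s, rfl, hP, fun k => (hf k (s k) (hP k)).2⟩

theorem NILT (hLNRM : S_LNRM) (hCOMM : S_COMM) (hSTEP : S_STEP) (hSEQ : S_SEQ)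
    (hLAPPR : S_LAPPR) (_hLNCMP : S_LNCMP) : S_NILT := by
  intro b z₀ r A G 𝔤 _ _ Φ H
  have hr : 0 < r := G.pos
  have L : LGrp z₀ r A := G.toLGrp
  obtain ⟨η₁, hη₁, C₁, hC₁, hcomm⟩ := hCOMM G
  obtain ⟨η₂, hη₂, hstep⟩ := hSTEP L
  set η : ℝ := min η₁ (min η₂ (1 / (8 * (C₁ + 1)))) with hηdef
  have hη : 0 < η := by
    rw [hηdef]; positivity
  have hηη₁ : η ≤ η₁ := min_le_left _ _
  have hηη₂ : η ≤ η₂ := (min_le_right _ _).trans (min_le_left _ _)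
  have hηC' : η ≤ 1 / (8 * (C₁ + 1)) := (min_le_right _ _).trans (min_le_right _ _)
  have hηC : C₁ * η ≤ 1 / 8 := by
    have h1 : (C₁ + 1) * η ≤ 1 / 8 := by
      calc (C₁ + 1) * η ≤ (C₁ + 1) * (1 / (8 * (C₁ + 1))) := by gcongr
        _ = 1 / 8 := by field_simp
    nlinarith
  have hb : ∀ x : 𝔤, InLL z₀ r A (Φ x) := fun x => (H.range _).2 ⟨x, rfl⟩
  refine ⟨η, hη, ?_⟩
  intro t ht hn hta N hN
  by_contra hnil
  -- the seminorm
  let ν : Seminorm ℝ 𝔤 := Seminorm.of (fun x => nL z₀ r (Φ x))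
    (fun x y => by
      simp only [map_add]
      exact (hLNRM hr _ _ (hb x) (hb y)).2.2.2.2.1)
    (fun c x => by
      simp only [map_smul]
      exact (hLNRM hr _ _ (hb x) (hb x)).2.2.2.2.2 c)
  have hν : ∀ x, ν x = nL z₀ r (Φ x) := fun x => rfl
  have hνle : ∀ x, ∀ z ∈ ball z₀ (r / 2), ‖Φ x z‖ ≤ ν x := fun x =>
    (hLNRM hr _ _ (hb x) (hb x)).1
  have hνsup : ∀ x M, 0 ≤ M → (∀ z ∈ ball z₀ (r / 2), ‖Φ x z‖ ≤ M) → ν x ≤ M := fun x =>
    (hLNRM hr _ _ (hb x) (hb x)).2.1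
  have hν0 : ∀ x, ν x = 0 → x = 0 := by
    intro x hx
    have := (hLNRM hr _ _ (hb x) (hb x)).2.2.2.1 hx
    apply H.inj
    rw [this, map_zero]
  have hνnn : ∀ x, 0 ≤ ν x := fun x => apply_nonneg ν x
  have := H.fin
  obtain ⟨κ, hκ, x₀, hx₀, hseq⟩ := hSEQ 𝔤 ν hν0 N hnil
  obtain ⟨κ₀, hκ₀, σ₀, hσ₀, hstep'⟩ := hstep κ hκ
  set κ' : ℝ := min κ₀ (min (1 / 2) (κ / 2)) with hκ'def
  have hκ' : 0 < κ' := by
    rw [hκ'def]; positivity
  have hκκ₀ : κ' ≤ κ₀ := min_le_left _ _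
  have hκhalf : κ' ≤ 1 / 2 := (min_le_right _ _).trans (min_le_left _ _)
  have hκκ : κ' ≤ κ / 2 := (min_le_right _ _).trans (min_le_right _ _)
  obtain ⟨s₀, hs₀, happr⟩ := hLAPPR L (r / 2) (by linarith) (by linarith) (κ' / 2) (by linarith)
  have hzb : z₀ ∈ ball z₀ (r / 2) := mem_ball_self (by linarith)
  -- approximating generators
  have gen : ∀ s ∈ A, Near z₀ (r / 2) s.g s₀ → ∃ x : 𝔤, ∀ z ∈ ball z₀ (r / 2),
      ‖s.g z - z - Φ x z‖ ≤ κ' * ν x := by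
    intro s hs hns
    set τ : ℝ := sSup ((fun z => ‖s.g z - z‖) '' ball z₀ (r / 2)) with hτ
    have hbdd : BddAbove ((fun z => ‖s.g z - z‖) '' ball z₀ (r / 2)) := by
      refine ⟨s₀, ?_⟩
      rintro _ ⟨z, hz, rfl⟩
      exact hns z hz
    have hnτ : Near z₀ (r / 2) s.g τ := fun z hz => le_csSup hbdd ⟨z, hz, rfl⟩
    have hτs : τ ≤ s₀ := csSup_le ⟨_, z₀, hzb, rfl⟩ (by
      rintro _ ⟨z, hz, rfl⟩
      exact hns z hz)
    obtain ⟨V, hV, hVe⟩ := happr s hs τ hτs hnτ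
    obtain ⟨x, rfl⟩ := (H.range V).1 hV
    have hτle : τ ≤ ν x + κ' / 2 * τ := csSup_le ⟨_, z₀, hzb, rfl⟩ (by
      rintro _ ⟨z, hz, rfl⟩
      have h1 := hVe z hz
      have h2 := hνle x z hz
      have h3 : ‖s.g z - z‖ ≤ ‖s.g z - z - Φ x z‖ + ‖Φ x z‖ := by
        have := norm_add_le (s.g z - z - Φ x z) (Φ x z)
        simpa using this
      simp only
      linarith)
    refine ⟨x, fun z hz => (hVe z hz).trans ?_⟩
    have hτ0 : 0 ≤ τ := (norm_nonneg _).trans (hnτ z₀ hzb)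
    have h4 : τ ≤ 2 * ν x := by nlinarith
    nlinarith
  -- the start
  set m : ℝ := ν x₀ with hm
  have hm0 : 0 < m := lt_of_le_of_ne (hνnn x₀) (fun h => hx₀ (hν0 x₀ h.symm))
  set ε : ℝ := min (m / 2) (κ * m / 8) with hεdef
  have hε : 0 < ε := by rw [hεdef]; positivity
  have hεm : ε ≤ m / 2 := min_le_left _ _
  have hεκ : ε ≤ κ * m / 8 := min_le_right _ _
  set σ₁ : ℝ := min η₁ (min s₀ σ₀) with hσ₁def
  have hσ₁ : 0 < σ₁ := by rw [hσ₁def]; positivity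
  have hσ₁η : σ₁ ≤ η₁ := min_le_left _ _
  have hσ₁s : σ₁ ≤ s₀ := (min_le_right _ _).trans (min_le_left _ _)
  have hσ₁σ : σ₁ ≤ σ₀ := (min_le_right _ _).trans (min_le_right _ _)
  obtain ⟨σ₂, hσ₂, hstart⟩ := (hb x₀).2.2 (r / 2) (by linarith) ε hε
  set σ : ℝ := min σ₂ (σ₁ / (m + ε)) / 2 with hσdef
  have hσ : 0 < σ := by rw [hσdef]; positivity
  have hσσ₂ : σ < σ₂ := by
    have : min σ₂ (σ₁ / (m + ε)) ≤ σ₂ := min_le_left _ _
    rw [hσdef]; linarith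
  have hσm : σ * (m + ε) ≤ σ₁ := by
    have h1 : σ ≤ σ₁ / (m + ε) := by
      have : min σ₂ (σ₁ / (m + ε)) ≤ σ₁ / (m + ε) := min_le_right _ _
      have h2 : 0 < σ₁ / (m + ε) := by positivity
      rw [hσdef]; linarith
    rwa [le_div_iff₀ (by positivity)] at h1
  obtain ⟨u₀, hu₀, hu₀e⟩ := hstart σ hσ hσσ₂
  have hu₀n : Near z₀ (r / 2) u₀.g σ₁ := by
    intro z hz
    have h1 := hu₀e z hz
    have h2 := hνle x₀ z hz
    have h3 : ‖u₀.g z - z‖ ≤ ‖u₀.g z - z - σ • Φ x₀ z‖ + ‖σ • Φ x₀ z‖ := by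
      have := norm_add_le (u₀.g z - z - σ • Φ x₀ z) (σ • Φ x₀ z)
      simpa using this
    rw [norm_smul, Real.norm_of_nonneg hσ.le] at h3
    have h4 : σ * ‖Φ x₀ z‖ ≤ σ * m := by gcongr
    linarith
  -- the sequence
  obtain ⟨s, hs0, hsP, hsR⟩ := exists_seq_rel
    (P := fun k (s : Tri b) => s ∈ A ∧ Near z₀ (r / 2) s.g (σ₁ / 2 ^ k))
    (R := fun k (s c : Tri b) => IsComm z₀ c t s ∧ ‖c.a z₀ - 1‖ ≤ C₁ * η * (σ₁ / 2 ^ k) ∧
      ‖c.β z₀‖ ≤ C₁ * ((‖t.a z₀ - 1‖ + η) * (1 + ‖s.β z₀‖) +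
        (‖s.a z₀ - 1‖ + σ₁ / 2 ^ k) * (1 + ‖t.β z₀‖))) u₀
    ⟨hu₀, by simpa using hu₀n⟩ (by
      rintro k s ⟨hs, hns⟩
      have hk : σ₁ / 2 ^ k ≤ σ₁ := div_le_self hσ₁.le (one_le_pow₀ (by norm_num))
      obtain ⟨c, hc, hcc, hcn, hca, hcβ⟩ := hcomm t ht s hs η (σ₁ / 2 ^ k) hηη₁
        (hk.trans hσ₁η) hn hns
      refine ⟨c, ⟨hc, fun z hz => (hcn z hz).trans ?_⟩, hcc, hca, hcβ⟩
      have h0 : 0 ≤ σ₁ / 2 ^ k := by positivity
      rw [pow_succ]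
      have h1 : σ₁ / (2 ^ k * 2) = 1 / 2 * (σ₁ / 2 ^ k) := by field_simp
      rw [h1]
      nlinarith)
  have hk : ∀ k : ℕ, σ₁ / 2 ^ k ≤ σ₁ := fun k =>
    div_le_self hσ₁.le (one_le_pow₀ (by norm_num))
  have hsn : ∀ k, ∀ q, σ₁ ≤ q → Near z₀ (r / 2) (s k).g q := fun k q hq z hz =>
    ((hsP k).2 z hz).trans ((hk k).trans hq)
  have hx : ∀ k, ∃ x : 𝔤, ∀ z ∈ ball z₀ (r / 2), ‖(s k).g z - z - Φ x z‖ ≤ κ' * ν x :=
    fun k => gen (s k) (hsP k).1 (hsn k s₀ hσ₁s)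
  choose x hx using hx
  -- the first term
  have h0 : ν (x 0 - σ • x₀) ≤ κ' * ν (x 0) + ε * σ := by
    refine hνsup _ _ (by have := hνnn (x 0); positivity) fun z hz => ?_
    have h1 := hu₀e z hz
    have h2 := hx 0 z hz
    rw [hs0] at h2
    have h3 : Φ (x 0 - σ • x₀) z = (u₀.g z - z - σ • Φ x₀ z) - (u₀.g z - z - Φ (x 0) z) := by
      rw [map_sub, map_smul, Pi.sub_apply, Pi.smul_apply]
      abel
    rw [h3]
    exact (norm_sub_le _ _).trans (by linarith)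
  have h00 : σ * m ≤ ν (x 0) + ν (x 0 - σ • x₀) := by
    have h1 : ν (σ • x₀) ≤ ν (x 0) + ν (x 0 - σ • x₀) := by
      have := map_sub_le_add ν (x 0) (x 0 - σ • x₀)
      simpa using this
    rwa [map_smul_eq_mul, Real.norm_of_nonneg hσ.le] at h1
  have h01 : σ * m ≤ 4 * ν (x 0) := by
    have h1 := hνnn (x 0)
    have h2 : σ * ε ≤ σ * (m / 2) := by gcongr
    have h3 : κ' * ν (x 0) ≤ 1 / 2 * ν (x 0) := by gcongr
    nlinarith
  have hx0 : x 0 ≠ 0 := by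
    intro h
    rw [h, map_zero] at h01
    have : 0 < σ * m := by positivity
    linarith
  have hκ0 : ν (x 0 - σ • x₀) ≤ κ * ν (x 0) := by
    have h1 := hνnn (x 0)
    have h2 : ε * σ ≤ κ * m / 8 * σ := by gcongr
    have h3 : κ' * ν (x 0) ≤ κ / 2 * ν (x 0) := by gcongr
    have h4 : κ * (σ * m) ≤ κ * (4 * ν (x 0)) := by gcongr
    nlinarith
  -- the steps
  have hκk : ∀ k, ν (x (k + 1) - N (x k)) ≤ κ * ν (x k) := by
    intro k
    have h1 := hstep' t ht (fun z hz => (hn z hz).trans hηη₂) (s k) (hsP k).1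
      (hsn k σ₀ hσ₁σ) (s (k + 1)) (hsP (k + 1)).1 (hsR k).1 (hsn (k + 1) σ₀ hσ₁σ)
      (Φ (x k)) (Φ (x k + N (x k))) (Φ (x (k + 1))) (hb _) (hb _) (hb _) (hN (x k))
      (fun z hz => (hx k z hz).trans (by
        have := hνnn (x k)
        rw [hν] at this ⊢
        gcongr))
      (fun z hz => (hx (k + 1) z hz).trans (by
        have := hνnn (x (k + 1))
        rw [hν] at this ⊢
        gcongr))
    have h2 : Φ (x (k + 1)) - (Φ (x k + N (x k)) - Φ (x k)) = Φ (x (k + 1) - N (x k)) := by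
      rw [← map_sub, ← map_sub]
      congr 1
      abel
    rw [h2] at h1
    exact h1
  have hne := hseq x hx0 ⟨σ, hκ0⟩ hκk
  -- no element is the identity
  have hid : ∀ k, ¬ ∀ z ∈ ball z₀ r, (s k).g z = z := by
    intro k hk
    apply hne k
    apply hν0
    have h1 : ν (x k) ≤ κ' * ν (x k) := by
      refine hνsup _ _ (by have := hνnn (x k); positivity) fun z hz => ?_
      have h2 := hx k z hz
      rw [hk z (ball_subset_ball (by linarith) hz), sub_self, zero_sub, norm_neg] at h2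
      exact h2
    have h2 := hνnn (x k)
    nlinarith
  -- the bounds
  set T : ℝ := 1 + ‖t.β z₀‖ with hT
  have hT0 : 0 < T := by rw [hT]; positivity
  set a' : ℝ := ‖(s 0).a z₀ - 1‖ + C₁ * η * σ₁ with ha'
  have ha'0 : 0 ≤ a' := by rw [ha']; positivity
  have hak : ∀ k, ‖(s k).a z₀ - 1‖ ≤ a' := by
    intro k
    cases k with
    | zero =>
      rw [ha']
      have : 0 ≤ C₁ * η * σ₁ := by positivity
      linarith
    | succ k =>
      refine (hsR k).2.1.trans ?_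
      rw [ha']
      have h1 : C₁ * η * (σ₁ / 2 ^ k) ≤ C₁ * η * σ₁ := by
        have := hk k
        gcongr
      have h2 := norm_nonneg ((s 0).a z₀ - 1)
      linarith
  set D : ℝ := C₁ * ((a' + σ₁) * T) with hD
  have hD0 : 0 ≤ D := by rw [hD]; positivity
  set R : ℝ := 1 + ‖(s 0).β z₀‖ + 2 * (1 + D) with hR
  have hBk : ∀ k, 1 + ‖(s k).β z₀‖ ≤ R := by
    intro k
    induction k with
    | zero => rw [hR]; linarith
    | succ k ih =>
      have h1 := (hsR k).2.2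
      have h2 : C₁ * ((‖t.a z₀ - 1‖ + η) * (1 + ‖(s k).β z₀‖) +
          (‖(s k).a z₀ - 1‖ + σ₁ / 2 ^ k) * (1 + ‖t.β z₀‖)) ≤
          C₁ * ((η + η) * R + (a' + σ₁) * T) := by
        have h3 := hak k
        have h4 := hk k
        gcongr
      have h5 : C₁ * ((η + η) * R + (a' + σ₁) * T) = 2 * (C₁ * η) * R + D := by
        rw [hD]; ring
      have hR0 : 0 ≤ R := by rw [hR]; positivity
      have h6 : 2 * (C₁ * η) * R ≤ 1 / 4 * R := by nlinarith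
      have h7 : 2 * (1 + D) ≤ R := by
        rw [hR]
        have := norm_nonneg ((s 0).β z₀)
        linarith
      linarith
  obtain ⟨η₃, hη₃, hfin⟩ := G.fin R
  obtain ⟨k, hkk⟩ : ∃ k : ℕ, σ₁ / 2 ^ k ≤ η₃ := by
    obtain ⟨k, hk⟩ := exists_nat_gt (σ₁ / η₃)
    refine ⟨k, ?_⟩
    rw [div_le_iff₀ (by positivity)]
    have h1 : (k : ℝ) ≤ 2 ^ k := by
      exact_mod_cast (Nat.lt_two_pow_self (n := k)).le
    rw [div_lt_iff₀ hη₃] at hk
    nlinarith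
  exact hid k (hfin (s k) (hsP k).1 (fun z hz => ((hsP k).2 z hz).trans hkk)
    (by have := hBk k; linarith))

end Pool.Agent.Helper55.SP
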