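import Pool.Agent.Helper10.SP.GoalsE

/-!
# SP-PERA: assembly of the periods (packet 3874)
-/

open Complex Metric Set Filter Topology MeasureTheory
open scoped ContDiff ComplexConjugate

namespace Pool.Agent.Helper55.SP

open Pool.Agent.Helper95.Lin Pool.Agent.Helper10.SP

/-- The area form of two complex numbers. -/
theorem area_lower {K : ℝ} (hK : 0 < K) (u v : ℂ)
    (h : ∀ p q : ℝ, ‖(p : ℂ) + q * I‖ ≤ K * ‖(p : ℂ) * u + q * v‖) :
    1 ≤ K ^ 2 * |(conj u * v).im| := by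
  have h1 : 1 ≤ K * ‖u‖ := by simpa using h 1 0
  have hu : 0 < ‖u‖ := by
    by_contra hc
    have : ‖u‖ = 0 := le_antisymm (not_lt.1 hc) (norm_nonneg _)
    rw [this, mul_zero] at h1
    linarith
  have h2 := h (-(conj u * v).re) (‖u‖ ^ 2)
  have h3 : (((-(conj u * v).re : ℝ) : ℂ)) * u + ((‖u‖ ^ 2 : ℝ) : ℂ) * v =
      u * (((conj u * v).im : ℝ) * I) := by
    have h4 : ((‖u‖ ^ 2 : ℝ) : ℂ) = u * conj u := by
      rw [Complex.mul_conj, Complex.normSq_eq_norm_sq]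
    have h5 : conj u * v = ((conj u * v).re : ℂ) + ((conj u * v).im : ℂ) * I :=
      (Complex.re_add_im _).symm
    rw [h4]
    push_cast
    linear_combination u * h5
  rw [h3, norm_mul, norm_mul, Complex.norm_I, mul_one, Complex.norm_real, Real.norm_eq_abs] at h2
  have h6 : ‖u‖ ^ 2 ≤ ‖(((-(conj u * v).re : ℝ) : ℂ)) + ((‖u‖ ^ 2 : ℝ) : ℂ) * I‖ := by
    have h7 := Complex.abs_im_le_norm ((((-(conj u * v).re : ℝ) : ℂ)) + ((‖u‖ ^ 2 : ℝ) : ℂ) * I)
    have h8 : ((((-(conj u * v).re : ℝ) : ℂ)) + ((‖u‖ ^ 2 : ℝ) : ℂ) * I).im = ‖u‖ ^ 2 := by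
      rw [Complex.add_im, Complex.ofReal_im, Complex.im_ofReal_mul, Complex.I_im, mul_one, zero_add]
    rw [h8, abs_of_nonneg (by positivity)] at h7
    exact h7
  have h9 : ‖u‖ ≤ K * |(conj u * v).im| := by
    have h10 : ‖u‖ * ‖u‖ ≤ ‖u‖ * (K * |(conj u * v).im|) := by
      nlinarith
    exact le_of_mul_le_mul_left h10 hu
  calc (1 : ℝ) ≤ K * ‖u‖ := h1
    _ ≤ K * (K * |(conj u * v).im|) := by gcongr
    _ = K ^ 2 * |(conj u * v).im| := by ring

/-- Change of basis for the area form. -/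
theorem area_change (x y : ℂ) (a b c d : ℝ) :
    (conj ((a : ℂ) * x + b * y) * ((c : ℂ) * x + d * y)).im =
      (a * d - c * b) * (conj x * y).im := by
  simp only [map_add, map_mul, Complex.conj_ofReal, Complex.mul_im, Complex.add_re, Complex.add_im,
    Complex.mul_re, Complex.conj_re, Complex.conj_im, Complex.ofReal_re, Complex.ofReal_im]
  ring

theorem area_mul (a x y : ℂ) :
    (conj (a * x) * (a * y)).im = ‖a‖ ^ 2 * (conj x * y).im := by
  have h1 : conj (a * x) * (a * y) = ((‖a‖ ^ 2 : ℝ) : ℂ) * (conj x * y) := by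
    have h4 : ((‖a‖ ^ 2 : ℝ) : ℂ) = a * conj a := by
      rw [Complex.mul_conj, Complex.normSq_eq_norm_sq]
    rw [h4, map_mul]
    ring
  rw [h1, Complex.im_ofReal_mul]

/-- A continuous nonvanishing real function on a preconnected set has constant sign. -/
theorem pos_of_preconnected {X : Type*} [TopologicalSpace X] {S : Set X} (hS : IsPreconnected S)
    {D : X → ℝ} (hD : ContinuousOn D S) (hne : ∀ x ∈ S, D x ≠ 0) {x₀ : X} (hx₀ : x₀ ∈ S)
    (h0 : 0 < D x₀) : ∀ x ∈ S, 0 < D x := by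
  intro x hx
  by_contra hc
  have h1 : (0 : ℝ) ∈ D '' S := hS.intermediate_value hx hx₀ hD ⟨not_lt.1 hc, h0.le⟩
  obtain ⟨y, hy, hy0⟩ := h1
  exact hne y hy hy0

theorem pera (hLAMX : S_LAMX) (hLTR : S_LTR) : S_PERA := by
  intro b N c R P Φ C A
  classical
  choose Λ ε K hε hK hadd hsmul hctr hholo hbd hgr using fun i => hLAMX c R P Φ C A i
  have : Nonempty (Fin N) := ⟨⟨0, A.posN⟩⟩
  obtain ⟨i₀, -, hi₀⟩ := Finset.exists_min_image (Finset.univ : Finset (Fin N)) ε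
    Finset.univ_nonempty
  obtain ⟨i₁, -, hi₁⟩ := Finset.exists_max_image (Finset.univ : Finset (Fin N)) K
    Finset.univ_nonempty
  set ε₀ : ℝ := ε i₀ with hε₀
  set K₀ : ℝ := K i₁ with hK₀def
  have hK₀ : 0 < K₀ := hK i₁
  have hbd' : ∀ i w, ∀ x ∈ ball (c i) 3, ‖w‖ ≤ K₀ * ‖Λ i w x‖ ∧ ‖Λ i w x‖ ≤ K₀ * ‖w‖ := by
    intro i w x hx
    have h1 := hi₁ i (Finset.mem_univ _)
    obtain ⟨h2, h3⟩ := hbd i w x hx
    exact ⟨h2.trans (by gcongr), h3.trans (by gcongr)⟩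
  have hgr' : ∀ i, ∀ ε > 0, ∃ B : ℝ, ∀ t, NrA c P i 3 ε₀ t → ∀ x ∈ ball (c i) 3,
      ‖t.q x - Λ i (t.q (c i)) x‖ ≤ ε * ‖t.q (c i)‖ + B := by
    intro i δ hδ
    obtain ⟨B, hB⟩ := hgr i δ hδ
    refine ⟨B, fun t ht x hx => hB t ⟨ht.1, fun z hz => ?_⟩ x hx⟩
    have h1 := hi₀ i (Finset.mem_univ _)
    exact ⟨(ht.2 z hz).1.trans h1, (ht.2 z hz).2.trans h1⟩
  -- the balls are disjoint
  have hdisj : ∀ i j z, z ∈ ball (c i) 3 → z ∈ ball (c j) 3 → i = j := by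
    intro i j z hi hj
    by_contra hij
    have h1 := A.sep i j hij
    have h2 := A.Rge
    have h3 := A.Cge
    have h4 : dist (c i) (c j) < 3 + 3 := by
      refine (dist_triangle_left (c i) (c j) z).trans_lt ?_
      exact add_lt_add (mem_ball.1 hi) (mem_ball.1 hj)
    rw [dist_eq_norm] at h4
    linarith
  have hidx : ∀ z, ∃ i, ∀ j, z ∈ ball (c j) 3 → i = j := by
    intro z
    by_cases hz : ∃ i, z ∈ ball (c i) 3
    · obtain ⟨i, hi⟩ := hz
      exact ⟨i, fun j hj => hdisj i j z hi hj⟩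
    · exact ⟨i₀, fun j hj => absurd ⟨j, hj⟩ hz⟩
  choose idx hidx using hidx
  let e : Fin 2 → ℂ := ![1, I]
  have he : ∀ j, ‖e j‖ = 1 := by
    intro j
    fin_cases j <;> simp [e]
  let lam : Fin 2 → Cn b → ℂ := fun j z => Λ (idx z) (e j) z
  have hlam : ∀ i j, ∀ z ∈ ball (c i) 3, lam j z = Λ i (e j) z := by
    intro i j z hz
    simp only [lam, hidx z i hz]
  have hdec : ∀ i w, ∀ z ∈ ball (c i) 3,
      Λ i w z = ((w.re : ℝ) : ℂ) * lam 0 z + ((w.im : ℝ) : ℂ) * lam 1 z := by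
    intro i w z hz
    have h1 : Λ i w z = Λ i ((w.re : ℂ) * 1 + (w.im : ℂ) * I) z := by
      rw [mul_one, Complex.re_add_im]
    rw [h1, hadd i _ _ z hz, hsmul i _ _ z hz, hsmul i _ _ z hz, hlam i 0 z hz, hlam i 1 z hz]
    simp [e]
  have hD1 : ∀ z ∈ Bd c 3, 1 ≤ K₀ ^ 2 * |(conj (lam 0 z) * lam 1 z).im| := by
    intro z hz
    obtain ⟨i, hi⟩ := mem_iUnion.1 hz
    refine area_lower hK₀ _ _ fun p q => ?_
    have h1 := (hbd' i ((p : ℂ) + q * I) z hi).1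
    have h2 := hdec i ((p : ℂ) + q * I) z hi
    have h3 : ((p : ℂ) + q * I).re = p := by simp
    have h4 : ((p : ℂ) + q * I).im = q := by simp
    rw [h3, h4] at h2
    rwa [h2] at h1
  have hlamd : ∀ j, DifferentiableOn ℂ (lam j) (Bd c 3) := by
    intro j z hz
    obtain ⟨i, hi⟩ := mem_iUnion.1 hz
    have h1 : DifferentiableAt ℂ (Λ i (e j)) z :=
      (hholo i (e j)).differentiableAt (isOpen_ball.mem_nhds hi)
    refine (h1.congr_of_eventuallyEq ?_).differentiableWithinAt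
    filter_upwards [isOpen_ball.mem_nhds hi] with y hy
    exact hlam i j y hy
  have hDpos : ∀ z ∈ Bd c 3, 0 < (conj (lam 0 z) * lam 1 z).im := by
    intro z hz
    obtain ⟨i, hi⟩ := mem_iUnion.1 hz
    have hsub : ball (c i) 3 ⊆ Bd c 3 := subset_iUnion (fun i => ball (c i) 3) i
    have hci : c i ∈ ball (c i) 3 := mem_ball_self (by norm_num)
    refine pos_of_preconnected (S := ball (c i) 3)
      (D := fun z => (conj (lam 0 z) * lam 1 z).im) (convex_ball _ _).isPreconnected ?_ ?_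
      hci ?_ z hi
    · have h0 := ((hlamd 0).mono hsub).continuousOn
      have h1 := ((hlamd 1).mono hsub).continuousOn
      exact Complex.continuous_im.comp_continuousOn
        ((Complex.continuous_conj.comp_continuousOn h0).mul h1)
    · intro y hy h0
      have h1 := hD1 y (hsub hy)
      rw [h0, abs_zero, mul_zero] at h1
      linarith
    · rw [hlam i 0 _ hci, hlam i 1 _ hci, hctr, hctr]
      simp [e]
  refine ⟨lam, ⟨hlamd, ⟨K₀ + K₀ ^ 2, by positivity, fun z hz => ⟨fun j => ?_, ?_⟩⟩, ?_⟩⟩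
  · obtain ⟨i, hi⟩ := mem_iUnion.1 hz
    rw [hlam i j z hi]
    have h1 := (hbd' i (e j) z hi).2
    rw [he j, mul_one] at h1
    have h2 : 0 ≤ K₀ ^ 2 := by positivity
    linarith
  · have h1 := hD1 z hz
    have h2 := hDpos z hz
    rw [abs_of_pos h2] at h1
    nlinarith
  · intro U t ht z hzU hz hgz
    obtain ⟨i, hi⟩ := mem_iUnion.1 hz
    obtain ⟨j, hj⟩ := mem_iUnion.1 hgz
    obtain ⟨r, hr, hrU, hrm, hw⟩ := hLTR c R P Φ C A Λ ε₀ K₀ (hε i₀) hK₀ hadd hsmul hholo hbd'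
      hgr' i j U t ht z hzU hi hj
    obtain ⟨w0, hw0⟩ := hw 1
    obtain ⟨w1, hw1⟩ := hw I
    have hzi : z ∈ ball z r ∩ ball (c i) 3 :=
      ⟨mem_ball_self hr, ball_subset_ball (by norm_num) hi⟩
    have hrel0 : ∀ z' ∈ ball z r ∩ ball (c i) 3, t.a z' * lam 0 z' =
        ((w0.re : ℝ) : ℂ) * lam 0 (t.g z') + ((w0.im : ℝ) : ℂ) * lam 1 (t.g z') := by
      intro z' hz'
      rw [hlam i 0 z' hz'.2, ← hdec j w0 _ (hrm hz'.1), ← hw0 z' hz'.1]
      simp [e]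
    have hrel1 : ∀ z' ∈ ball z r ∩ ball (c i) 3, t.a z' * lam 1 z' =
        ((w1.re : ℝ) : ℂ) * lam 0 (t.g z') + ((w1.im : ℝ) : ℂ) * lam 1 (t.g z') := by
      intro z' hz'
      rw [hlam i 1 z' hz'.2, ← hdec j w1 _ (hrm hz'.1), ← hw1 z' hz'.1]
      simp [e]
    refine ⟨!![w0.re, w1.re; w0.im, w1.im], ball z r ∩ ball (c i) 3, ?_,
      isOpen_ball.inter isOpen_ball, hzi, fun y hy => hrU hy.1, fun z' hz' k => ?_⟩
    · have h1 := area_mul (t.a z) (lam 0 z) (lam 1 z)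
      rw [hrel0 z hzi, hrel1 z hzi, area_change] at h1
      have h2 := hDpos z (mem_iUnion.2 ⟨i, hzi.2⟩)
      have h3 := hDpos (t.g z) (mem_iUnion.2 ⟨j, hrm hzi.1⟩)
      have h4 : t.a z ≠ 0 := ((A.holo U t ht).2.2.2.2.2 z hzU).2
      have h5 : 0 < ‖t.a z‖ ^ 2 := by positivity
      rw [Matrix.det_fin_two_of]
      have h6 : 0 < (w0.re * w1.im - w1.re * w0.im) * (conj (lam 0 (t.g z)) * lam 1 (t.g z)).im := by
        rw [h1]; positivity
      exact (pos_iff_pos_of_mul_pos h6).2 h3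
    · fin_cases k
      · simpa [Fin.sum_univ_two] using hrel0 z' hz'
      · simpa [Fin.sum_univ_two] using hrel1 z' hz'

end Pool.Agent.Helper55.SP
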